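import Mathlib

/-!
# Alon's conjecture on universal random permutations: definitions

Random configurations are subsets of the grid `[0,M) x [0,M)`, every cell is occupied
independently with probability `q`.  All probabilities are finite sums.
-/

set_option autoImplicit false
open Classical

namespace Pool.H52.AL

abbrev Cell := ℕ × ℕ

/-- strict order in both coordinates -/
def sl (p p' : Cell) : Prop := p.1 < p'.1 ∧ p.2 < p'.2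

def grid (M : ℕ) : Finset Cell := Finset.range M ×ˢ Finset.range M

/-- probability of `P` for a Bernoulli(`q`) subset of the grid of side `M` -/
noncomputable def Pr (q : ℝ) (M : ℕ) (P : Finset Cell → Prop) : ℝ :=
  ∑ ω ∈ (grid M).powerset.filter P, q ^ ω.card * (1 - q) ^ (M ^ 2 - ω.card)

/-- `X` occurs in `ω` strictly below `z` -/
def U (X : Finset Cell → Prop) (ω : Finset Cell) (z : Cell) : Prop :=
  ∃ A ⊆ ω, X A ∧ ∀ p ∈ A, p.1 < z.1 ∧ p.2 < z.2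

/-- `Y` occurs in `ω` weakly above `z` -/
def D (Y : Finset Cell → Prop) (ω : Finset Cell) (z : Cell) : Prop :=
  ∃ A ⊆ ω, Y A ∧ ∀ p ∈ A, z.1 ≤ p.1 ∧ z.2 ≤ p.2

/-- `ω` contains `X ⊕ Y` -/
def C0 (X Y : Finset Cell → Prop) (ω : Finset Cell) : Prop :=
  ∃ z, U X ω z ∧ D Y ω z

/-- `ω` contains `X ⊕ 1 ⊕ Y` -/
def C1 (X Y : Finset Cell → Prop) (ω : Finset Cell) : Prop :=
  ∃ p ∈ ω, U X ω p ∧ D Y ω (p.1 + 1, p.2 + 1)

/-- `ω` contains `X ⊕ 1234 ⊕ Y` -/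
def C4 (X Y : Finset Cell → Prop) (ω : Finset Cell) : Prop :=
  ∃ p1 ∈ ω, ∃ p2 ∈ ω, ∃ p3 ∈ ω, ∃ p4 ∈ ω,
    U X ω p1 ∧ sl p1 p2 ∧ sl p2 p3 ∧ sl p3 p4 ∧ D Y ω (p4.1 + 1, p4.2 + 1)

/-- `p1 p2 p3 p4` is an occurrence of `1324` -/
def Is1324 (p1 p2 p3 p4 : Cell) : Prop :=
  sl p1 p2 ∧ sl p1 p3 ∧ p2.1 < p3.1 ∧ p3.2 < p2.2 ∧ sl p2 p4 ∧ sl p3 p4

/-- `ω` contains `X ⊕ 1324 ⊕ Y` -/
def CB (X Y : Finset Cell → Prop) (ω : Finset Cell) : Prop :=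
  ∃ p1 ∈ ω, ∃ p2 ∈ ω, ∃ p3 ∈ ω, ∃ p4 ∈ ω,
    U X ω p1 ∧ Is1324 p1 p2 p3 p4 ∧ D Y ω (p4.1 + 1, p4.2 + 1)

/-- `X` and `Y` occur with a free square of side `s` between them -/
def Es (X Y : Finset Cell → Prop) (s M : ℕ) (ω : Finset Cell) : Prop :=
  ∃ z : Cell, z.1 + s ≤ M ∧ z.2 + s ≤ M ∧ U X ω z ∧ D Y ω (z.1 + s, z.2 + s)

/-- no two points in a common row or column -/
def NC (ω : Finset Cell) : Prop := ∀ p ∈ ω, ∀ p' ∈ ω, p ≠ p' → p.1 ≠ p'.1 ∧ p.2 ≠ p'.2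

/-- contains `1324 ⊕ ... ⊕ 1324` (`a` blocks) -/
def XB : ℕ → Finset Cell → Prop
  | 0, _ => True
  | (a + 1), A => ∃ p1 ∈ A, ∃ p2 ∈ A, ∃ p3 ∈ A, ∃ p4 ∈ A, Is1324 p1 p2 p3 p4 ∧ U (XB a) A p1

/-- contains an increasing sequence of length `b` -/
def YI : ℕ → Finset Cell → Prop
  | 0, _ => True
  | (b + 1), A => ∃ p ∈ A, D (YI b) A (p.1 + 1, p.2 + 1)

/-- `ω` contains `1324^{⊕ a} ⊕ 1^{⊕ b}` -/
def Cab (a b : ℕ) (ω : Finset Cell) : Prop := C0 (XB a) (YI b) ω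

/-- the universality event of the frozen statement -/
def Uni (k n : ℕ) (σ : Equiv.Perm (Fin n)) : Prop :=
  ∀ π : Equiv.Perm (Fin k), ∃ f : Fin k ↪o Fin n,
    ∀ i j : Fin k, (π i < π j ↔ σ (f i) < σ (f j))

end Pool.H52.AL
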