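import Pool.Agent.H52.AL.BDefs

set_option autoImplicit false
open Classical

namespace Pool.H52.AL

theorem U_mono {X : Finset Cell → Prop} {ω : Finset Cell} {z z' : Cell} (h : U X ω z)
    (h1 : z.1 ≤ z'.1) (h2 : z.2 ≤ z'.2) : U X ω z' := by
  obtain ⟨A, hA, hX, hz⟩ := h
  exact ⟨A, hA, hX, fun p hp => ⟨lt_of_lt_of_le (hz p hp).1 h1, lt_of_lt_of_le (hz p hp).2 h2⟩⟩

theorem D_anti {Y : Finset Cell → Prop} {ω : Finset Cell} {z z' : Cell} (h : D Y ω z')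
    (h1 : z.1 ≤ z'.1) (h2 : z.2 ≤ z'.2) : D Y ω z := by
  obtain ⟨A, hA, hX, hz⟩ := h
  exact ⟨A, hA, hX, fun p hp => ⟨le_trans h1 (hz p hp).1, le_trans h2 (hz p hp).2⟩⟩

theorem U_copy {X : Finset Cell → Prop} {ω : Finset Cell} :
    ∀ (n : ℕ) (z : Cell), z.1 + z.2 ≤ n → U X ω z →
      ∃ A ⊆ ω, X A ∧ (∀ p ∈ A, p.1 < z.1 ∧ p.2 < z.2) ∧ ∀ p ∈ A, ¬ U X ω p := by
  intro n
  induction n with
  | zero =>
    rintro z hz ⟨A, hA, hX, hl⟩
    refine ⟨A, hA, hX, hl, ?_⟩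
    intro p hp
    have := (hl p hp).1
    omega
  | succ n ih =>
    rintro z hz ⟨A, hA, hX, hl⟩
    by_cases hc : ∀ p ∈ A, ¬ U X ω p
    · exact ⟨A, hA, hX, hl, hc⟩
    · push Not at hc
      obtain ⟨p, hp, hU⟩ := hc
      have h1 := (hl p hp).1
      have h2 := (hl p hp).2
      obtain ⟨A', hA', hX', hl', hc'⟩ := ih p (by omega) hU
      exact ⟨A', hA', hX', fun w hw => ⟨lt_trans (hl' w hw).1 h1, lt_trans (hl' w hw).2 h2⟩, hc'⟩

theorem U_congr {X : Finset Cell → Prop} {ω ω' : Finset Cell}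
    (h : ∀ p, ¬ U X ω p → (p ∈ ω ↔ p ∈ ω')) (z : Cell) : U X ω' z ↔ U X ω z := by
  constructor
  · rintro ⟨A, hA, hX, hl⟩
    by_cases hc : ∀ p ∈ A, ¬ U X ω p
    · exact ⟨A, fun p hp => (h p (hc p hp)).2 (hA hp), hX, hl⟩
    · push Not at hc
      obtain ⟨p, hp, hU⟩ := hc
      exact U_mono hU (hl p hp).1.le (hl p hp).2.le
  · intro hU
    obtain ⟨A, hA, hX, hl, hc⟩ := U_copy (z.1 + z.2) z le_rfl hU
    exact ⟨A, fun p hp => (h p (hc p hp)).1 (hA hp), hX, hl⟩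

theorem D_copy {Y : Finset Cell → Prop} {ω : Finset Cell} :
    ∀ (n : ℕ) (z : Cell), (ω.filter (fun p => z.1 ≤ p.1 ∧ z.2 ≤ p.2)).card ≤ n → D Y ω z →
      ∃ A ⊆ ω, Y A ∧ (∀ p ∈ A, z.1 ≤ p.1 ∧ z.2 ≤ p.2) ∧ ∀ p ∈ A, ¬ D Y ω (p.1 + 1, p.2 + 1) := by
  intro n
  induction n with
  | zero =>
    rintro z hz ⟨A, hA, hX, hl⟩
    refine ⟨A, hA, hX, hl, ?_⟩
    intro p hp
    exfalso
    have : p ∈ ω.filter (fun p => z.1 ≤ p.1 ∧ z.2 ≤ p.2) :=
      Finset.mem_filter.2 ⟨hA hp, hl p hp⟩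
    have h0 : ω.filter (fun p => z.1 ≤ p.1 ∧ z.2 ≤ p.2) = ∅ := by
      rw [← Finset.card_eq_zero]; omega
    rw [h0] at this
    simp at this
  | succ n ih =>
    rintro z hz ⟨A, hA, hX, hl⟩
    by_cases hc : ∀ p ∈ A, ¬ D Y ω (p.1 + 1, p.2 + 1)
    · exact ⟨A, hA, hX, hl, hc⟩
    · push Not at hc
      obtain ⟨p, hp, hU⟩ := hc
      have h1 := (hl p hp).1
      have h2 := (hl p hp).2
      have hlt : (ω.filter (fun w => p.1 + 1 ≤ w.1 ∧ p.2 + 1 ≤ w.2)).card <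
          (ω.filter (fun w => z.1 ≤ w.1 ∧ z.2 ≤ w.2)).card := by
        apply Finset.card_lt_card
        rw [Finset.ssubset_iff_of_subset]
        · refine ⟨p, Finset.mem_filter.2 ⟨hA hp, hl p hp⟩, ?_⟩
          intro hmem
          have := (Finset.mem_filter.1 hmem).2.1
          omega
        · intro w hw
          rw [Finset.mem_filter] at hw ⊢
          exact ⟨hw.1, by omega, by omega⟩
      obtain ⟨A', hA', hX', hl', hc'⟩ := ih (p.1 + 1, p.2 + 1) (by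
        simp only
        omega) hU
      refine ⟨A', hA', hX', fun w hw => ?_, hc'⟩
      have := hl' w hw
      simp only at this
      exact ⟨by omega, by omega⟩

theorem D_congr {Y : Finset Cell → Prop} {ω ω' : Finset Cell}
    (h : ∀ p : Cell, ¬ D Y ω (p.1 + 1, p.2 + 1) → (p ∈ ω ↔ p ∈ ω')) (z : Cell) :
    D Y ω' z ↔ D Y ω z := by
  constructor
  · rintro ⟨A, hA, hX, hl⟩
    by_cases hc : ∀ p ∈ A, ¬ D Y ω (p.1 + 1, p.2 + 1)
    · exact ⟨A, fun p hp => (h p (hc p hp)).2 (hA hp), hX, hl⟩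
    · push Not at hc
      obtain ⟨p, hp, hU⟩ := hc
      have := hl p hp
      exact D_anti hU (by simp only; omega) (by simp only; omega)
  · intro hU
    obtain ⟨A, hA, hX, hl, hc⟩ := D_copy _ z le_rfl hU
    exact ⟨A, fun p hp => (h p (hc p hp)).1 (hA hp), hX, hl⟩

/-- the pattern `X ⊕ 1` -/
def X1 (X : Finset Cell → Prop) (A : Finset Cell) : Prop := ∃ p ∈ A, U X A p
/-- the pattern `1 ⊕ Y` -/
def Y1 (Y : Finset Cell → Prop) (A : Finset Cell) : Prop := ∃ p ∈ A, D Y A (p.1 + 1, p.2 + 1)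

theorem up_eq {X : Finset Cell → Prop} {ω : Finset Cell} {w : Cell} :
    up X ω w ↔ U (X1 X) ω w := by
  constructor
  · rintro ⟨p, hp, ⟨A, hA, hX, hl⟩, hs⟩
    refine ⟨insert p A, ?_, ⟨p, Finset.mem_insert_self _ _, A, Finset.subset_insert _ _, hX, hl⟩, ?_⟩
    · intro x hx
      rcases Finset.mem_insert.1 hx with rfl | hx
      · exact hp
      · exact hA hx
    · intro x hx
      rcases Finset.mem_insert.1 hx with rfl | hx
      · exact hs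
      · exact ⟨lt_trans (hl x hx).1 hs.1, lt_trans (hl x hx).2 hs.2⟩
  · rintro ⟨A, hA, ⟨p, hp, A', hA', hX, hl⟩, hw⟩
    exact ⟨p, hA hp, ⟨A', hA'.trans hA, hX, hl⟩, hw p hp⟩

theorem dn_eq {Y : Finset Cell → Prop} {ω : Finset Cell} {w : Cell} :
    dn Y ω w ↔ D (Y1 Y) ω (w.1 + 1, w.2 + 1) := by
  constructor
  · rintro ⟨p, hp, hs, ⟨A, hA, hX, hl⟩⟩
    refine ⟨insert p A, ?_, ⟨p, Finset.mem_insert_self _ _, A, Finset.subset_insert _ _, hX, hl⟩, ?_⟩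
    · intro x hx
      rcases Finset.mem_insert.1 hx with rfl | hx
      · exact hp
      · exact hA hx
    · intro x hx
      have h1 := hs.1
      have h2 := hs.2
      rcases Finset.mem_insert.1 hx with rfl | hx
      · exact ⟨h1, h2⟩
      · have := hl x hx
        simp only at this ⊢
        exact ⟨by omega, by omega⟩
  · rintro ⟨A, hA, ⟨p, hp, A', hA', hX, hl⟩, hw⟩
    have := hw p hp
    simp only at this
    exact ⟨p, hA hp, ⟨by omega, by omega⟩, ⟨A', hA'.trans hA, hX, hl⟩⟩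

theorem up_mono {X : Finset Cell → Prop} {ω : Finset Cell} {z z' : Cell} (h : up X ω z)
    (h1 : z.1 ≤ z'.1) (h2 : z.2 ≤ z'.2) : up X ω z' := by
  obtain ⟨p, hp, hU, hs⟩ := h
  exact ⟨p, hp, hU, lt_of_lt_of_le hs.1 h1, lt_of_lt_of_le hs.2 h2⟩

theorem dn_anti {Y : Finset Cell → Prop} {ω : Finset Cell} {z z' : Cell} (h : dn Y ω z')
    (h1 : z.1 ≤ z'.1) (h2 : z.2 ≤ z'.2) : dn Y ω z := by
  obtain ⟨p, hp, hs, hU⟩ := h
  exact ⟨p, hp, ⟨lt_of_le_of_lt h1 hs.1, lt_of_le_of_lt h2 hs.2⟩, hU⟩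

theorem In_congr_of_out {X Y : Finset Cell → Prop} {ω ω' : Finset Cell}
    (h : ∀ w, ¬ In X Y ω w → (w ∈ ω' ↔ w ∈ ω)) :
    (∀ w, up X ω' w ↔ up X ω w) ∧ (∀ w, dn Y ω' w ↔ dn Y ω w) := by
  constructor
  · intro w
    rw [up_eq, up_eq]
    apply U_congr
    intro p hp
    rw [← up_eq] at hp
    exact (h p (fun hI => hp hI.1)).symm
  · intro w
    rw [dn_eq, dn_eq]
    apply D_congr
    intro p hp
    rw [← dn_eq] at hp
    exact (h p (fun hI => hp hI.2)).symm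

theorem mem_sw {ω : Finset Cell} {p p' w : Cell} :
    w ∈ sw ω p p' ↔ w = (p.1, p'.2) ∨ w = (p'.1, p.2) ∨ (w ≠ p' ∧ w ≠ p ∧ w ∈ ω) := by
  simp [sw, Finset.mem_insert, Finset.mem_erase]

theorem swap_rel {X Y : Finset Cell → Prop} {ω : Finset Cell} (hg : GoodS X Y ω) {p p' : Cell}
    (hp : p ∈ ω) (hp' : p' ∈ ω) (h1 : p.1 < p'.1) (h2 : p'.2 < p.2)
    (hu : up X ω (p.1, p'.2)) (hd : dn Y ω (p'.1, p.2)) : Rel X Y ω (sw ω p p') := by
  have Ia : In X Y ω (p.1, p'.2) := ⟨hu, dn_anti hd h1.le h2.le⟩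
  have Ib : In X Y ω (p'.1, p.2) := ⟨up_mono hu h1.le h2.le, hd⟩
  have Ip : In X Y ω p := ⟨up_mono hu le_rfl h2.le, dn_anti hd h1.le le_rfl⟩
  have Ip' : In X Y ω p' := ⟨up_mono hu h1.le le_rfl, dn_anti hd le_rfl h2.le⟩
  have hpp' : p ≠ p' := by
    rintro rfl; exact lt_irrefl _ h1
  have ha : (p.1, p'.2) ∉ ω := by
    intro hmem
    have hne : ((p.1, p'.2) : Cell) ≠ p := by
      intro h; rw [← h] at h2; exact lt_irrefl _ h2
    exact (hg _ hmem _ hp Ia Ip hne).1 rfl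
  have hb : (p'.1, p.2) ∉ ω := by
    intro hmem
    have hne : ((p'.1, p.2) : Cell) ≠ p := by
      intro h; rw [← h] at h1; exact lt_irrefl _ h1
    exact (hg _ hmem _ hp Ib Ip hne).2 rfl
  have hab : ((p.1, p'.2) : Cell) ≠ (p'.1, p.2) := by
    intro h
    have := congrArg Prod.fst h
    simp only at this
    omega
  have hout : ∀ w, ¬ In X Y ω w → (w ∈ sw ω p p' ↔ w ∈ ω) := by
    intro w hw
    rw [mem_sw]
    constructor
    · rintro (rfl | rfl | h)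
      · exact absurd Ia hw
      · exact absurd Ib hw
      · exact h.2.2
    · intro h
      right; right
      refine ⟨?_, ?_, h⟩
      · rintro rfl; exact hw Ip'
      · rintro rfl; exact hw Ip
  obtain ⟨hup, hdn⟩ := In_congr_of_out hout
  refine ⟨hup, hdn, hout, ?_, ?_, ?_, ?_⟩
  · ext x
    simp only [Finset.mem_image, Finset.mem_filter]
    constructor
    · rintro ⟨w, ⟨hw, hI⟩, rfl⟩
      rw [mem_sw] at hw
      rcases hw with rfl | rfl | h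
      · exact ⟨p, ⟨hp, Ip⟩, rfl⟩
      · exact ⟨p', ⟨hp', Ip'⟩, rfl⟩
      · exact ⟨w, ⟨h.2.2, hI⟩, rfl⟩
    · rintro ⟨w, ⟨hw, hI⟩, rfl⟩
      by_cases e1 : w = p
      · subst e1
        exact ⟨(w.1, p'.2), ⟨mem_sw.2 (Or.inl rfl), Ia⟩, rfl⟩
      · by_cases e2 : w = p'
        · subst e2
          exact ⟨(w.1, p.2), ⟨mem_sw.2 (Or.inr (Or.inl rfl)), Ib⟩, rfl⟩
        · exact ⟨w, ⟨mem_sw.2 (Or.inr (Or.inr ⟨e2, e1, hw⟩)), hI⟩, rfl⟩
  · ext x
    simp only [Finset.mem_image, Finset.mem_filter]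
    constructor
    · rintro ⟨w, ⟨hw, hI⟩, rfl⟩
      rw [mem_sw] at hw
      rcases hw with rfl | rfl | h
      · exact ⟨p', ⟨hp', Ip'⟩, rfl⟩
      · exact ⟨p, ⟨hp, Ip⟩, rfl⟩
      · exact ⟨w, ⟨h.2.2, hI⟩, rfl⟩
    · rintro ⟨w, ⟨hw, hI⟩, rfl⟩
      by_cases e1 : w = p
      · subst e1
        exact ⟨(p'.1, w.2), ⟨mem_sw.2 (Or.inr (Or.inl rfl)), Ib⟩, rfl⟩
      · by_cases e2 : w = p'
        · subst e2
          exact ⟨(p.1, w.2), ⟨mem_sw.2 (Or.inl rfl), Ia⟩, rfl⟩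
        · exact ⟨w, ⟨mem_sw.2 (Or.inr (Or.inr ⟨e2, e1, hw⟩)), hI⟩, rfl⟩
  · unfold sw
    rw [Finset.card_insert_of_notMem, Finset.card_insert_of_notMem, Finset.card_erase_of_mem,
      Finset.card_erase_of_mem hp]
    · have h2le : 1 < ω.card := Finset.one_lt_card.2 ⟨p, hp, p', hp', hpp'⟩
      omega
    · exact Finset.mem_erase.2 ⟨hpp'.symm, hp'⟩
    · simp [Finset.mem_erase, hb]
    · simp only [Finset.mem_insert, Finset.mem_erase, not_or, not_and]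
      exact ⟨hab, fun _ _ => ha⟩
  · -- good
    intro w hw w' hw' hI hI' hne
    have hIw : In X Y ω w := ⟨(hup w).1 hI.1, (hdn w).1 hI.2⟩
    have hIw' : In X Y ω w' := ⟨(hup w').1 hI'.1, (hdn w').1 hI'.2⟩
    rw [mem_sw] at hw hw'
    rcases hw with rfl | rfl | h
    · rcases hw' with rfl | rfl | h'
      · exact absurd rfl hne
      · simp only; exact ⟨h1.ne, h2.ne⟩
      · refine ⟨?_, ?_⟩
        · exact (hg p hp w' h'.2.2 Ip hIw' (Ne.symm h'.2.1)).1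
        · exact (hg p' hp' w' h'.2.2 Ip' hIw' (Ne.symm h'.1)).2
    · rcases hw' with rfl | rfl | h'
      · simp only; exact ⟨h1.ne', h2.ne'⟩
      · exact absurd rfl hne
      · refine ⟨?_, ?_⟩
        · exact (hg p' hp' w' h'.2.2 Ip' hIw' (Ne.symm h'.1)).1
        · exact (hg p hp w' h'.2.2 Ip hIw' (Ne.symm h'.2.1)).2
    · rcases hw' with rfl | rfl | h'
      · refine ⟨?_, ?_⟩
        · exact (hg w h.2.2 p hp hIw Ip h.2.1).1
        · exact (hg w h.2.2 p' hp' hIw Ip' h.1).2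
      · refine ⟨?_, ?_⟩
        · exact (hg w h.2.2 p' hp' hIw Ip' h.1).1
        · exact (hg w h.2.2 p hp hIw Ip h.2.1).2
      · exact hg w h.2.2 w' h'.2.2 hIw hIw' hne

end Pool.H52.AL
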