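import Pool.Agent.H52.AL.B0

set_option autoImplicit false
open Classical

namespace Pool.H52.AL

theorem Rel.inIff {X Y : Finset Cell → Prop} {ω ω' : Finset Cell} (h : Rel X Y ω ω') (w : Cell) :
    In X Y ω' w ↔ In X Y ω w := by
  unfold In
  rw [h.up_iff, h.dn_iff]

theorem Rel.refl' {X Y : Finset Cell → Prop} {ω : Finset Cell} (h : GoodS X Y ω) : Rel X Y ω ω :=
  ⟨fun _ => Iff.rfl, fun _ => Iff.rfl, fun _ _ => Iff.rfl, rfl, rfl, rfl, h⟩

theorem Rel.trans' {X Y : Finset Cell → Prop} {ω ω' ω'' : Finset Cell} (h : Rel X Y ω ω')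
    (h' : Rel X Y ω' ω'') : Rel X Y ω ω'' := by
  have e : (In X Y ω') = (In X Y ω) := funext fun w => propext (h.inIff w)
  refine ⟨fun w => (h'.up_iff w).trans (h.up_iff w), fun w => (h'.dn_iff w).trans (h.dn_iff w), ?_,
    ?_, ?_, h'.card.trans h.card, h'.good⟩
  · intro w hw
    exact (h'.out w (fun hI => hw ((h.inIff w).1 hI))).trans (h.out w hw)
  · have := h'.fst
    rw [e] at this
    exact this.trans h.fst
  · have := h'.snd
    rw [e] at this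
    exact this.trans h.snd

theorem Rel.symm' {X Y : Finset Cell → Prop} {ω ω' : Finset Cell} (h : Rel X Y ω ω')
    (hg : GoodS X Y ω) : Rel X Y ω' ω := by
  have e : (In X Y ω') = (In X Y ω) := funext fun w => propext (h.inIff w)
  refine ⟨fun w => (h.up_iff w).symm, fun w => (h.dn_iff w).symm, ?_, ?_, ?_, h.card.symm, hg⟩
  · intro w hw
    exact (h.out w (fun hI => hw ((h.inIff w).2 hI))).symm
  · rw [e]; exact h.fst.symm
  · rw [e]; exact h.snd.symm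

theorem antitone_unique_aux (I : Finset Cell)
    (h : ∀ p ∈ I, ∀ p' ∈ I, p ≠ p' → p.1 ≠ p'.1 ∧ p.2 ≠ p'.2 ∧ ¬ sl p p') (p : Cell) (hp : p ∈ I) :
    ((I.image Prod.fst).filter (· < p.1)).card = ((I.image Prod.snd).filter (p.2 < ·)).card := by
  have e1 : ((I.image Prod.fst).filter (· < p.1)) = (I.filter (fun w => w.1 < p.1)).image Prod.fst := by
    ext x
    simp only [Finset.mem_image, Finset.mem_filter]
    constructor
    · rintro ⟨⟨w, hw, rfl⟩, hx⟩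
      exact ⟨w, ⟨hw, hx⟩, rfl⟩
    · rintro ⟨w, ⟨hw, hx⟩, rfl⟩
      exact ⟨⟨w, hw, rfl⟩, hx⟩
  have e2 : ((I.image Prod.snd).filter (p.2 < ·)) = (I.filter (fun w => w.1 < p.1)).image Prod.snd := by
    ext x
    simp only [Finset.mem_image, Finset.mem_filter]
    constructor
    · rintro ⟨⟨w, hw, rfl⟩, hx⟩
      refine ⟨w, ⟨hw, ?_⟩, rfl⟩
      have hne : p ≠ w := by rintro rfl; exact lt_irrefl _ hx
      obtain ⟨h1, h2, h3⟩ := h p hp w hw hne
      by_contra hc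
      exact h3 ⟨lt_of_le_of_ne (not_lt.1 hc) h1, hx⟩
    · rintro ⟨w, ⟨hw, hx⟩, rfl⟩
      refine ⟨⟨w, hw, rfl⟩, ?_⟩
      have hne : w ≠ p := by rintro rfl; exact lt_irrefl _ hx
      obtain ⟨h1, h2, h3⟩ := h w hw p hp hne
      by_contra hc
      exact h3 ⟨hx, lt_of_le_of_ne (not_lt.1 hc) h2⟩
  rw [e1, e2, Finset.card_image_of_injOn, Finset.card_image_of_injOn]
  · intro w hw w' hw' e
    by_contra hne
    exact (h w (Finset.mem_filter.1 hw).1 w' (Finset.mem_filter.1 hw').1 hne).2.1 e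
  · intro w hw w' hw' e
    by_contra hne
    exact (h w (Finset.mem_filter.1 hw).1 w' (Finset.mem_filter.1 hw').1 hne).1 e

theorem antitone_sub (I J : Finset Cell)
    (hI : ∀ p ∈ I, ∀ p' ∈ I, p ≠ p' → p.1 ≠ p'.1 ∧ p.2 ≠ p'.2 ∧ ¬ sl p p')
    (hJ : ∀ p ∈ J, ∀ p' ∈ J, p ≠ p' → p.1 ≠ p'.1 ∧ p.2 ≠ p'.2 ∧ ¬ sl p p')
    (h1 : I.image Prod.fst = J.image Prod.fst) (h2 : I.image Prod.snd = J.image Prod.snd) :
    I ⊆ J := by
  intro p hp
  have hm : p.1 ∈ J.image Prod.fst := h1 ▸ Finset.mem_image_of_mem _ hp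
  obtain ⟨p', hp', e⟩ := Finset.mem_image.1 hm
  have c1 := antitone_unique_aux I hI p hp
  have c2 := antitone_unique_aux J hJ p' hp'
  rw [h1, h2] at c1
  rw [e] at c2
  have c3 : ((J.image Prod.snd).filter (p.2 < ·)).card = ((J.image Prod.snd).filter (p'.2 < ·)).card := by
    rw [← c1, ← c2]
  have hm2 : p.2 ∈ J.image Prod.snd := h2 ▸ Finset.mem_image_of_mem _ hp
  have hm2' : p'.2 ∈ J.image Prod.snd := Finset.mem_image_of_mem _ hp'
  have e2 : p'.2 = p.2 := by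
    rcases lt_trichotomy p'.2 p.2 with hlt | he | hlt
    · exfalso
      have : ((J.image Prod.snd).filter (p.2 < ·)).card < ((J.image Prod.snd).filter (p'.2 < ·)).card := by
        apply Finset.card_lt_card
        rw [Finset.ssubset_iff_of_subset]
        · exact ⟨p.2, Finset.mem_filter.2 ⟨hm2, hlt⟩, by simp⟩
        · intro x hx
          rw [Finset.mem_filter] at hx ⊢
          exact ⟨hx.1, lt_trans hlt hx.2⟩
      omega
    · exact he
    · exfalso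
      have : ((J.image Prod.snd).filter (p'.2 < ·)).card < ((J.image Prod.snd).filter (p.2 < ·)).card := by
        apply Finset.card_lt_card
        rw [Finset.ssubset_iff_of_subset]
        · exact ⟨p'.2, Finset.mem_filter.2 ⟨hm2', hlt⟩, by simp⟩
        · intro x hx
          rw [Finset.mem_filter] at hx ⊢
          exact ⟨hx.1, lt_trans hlt hx.2⟩
      omega
  have : p' = p := Prod.ext e e2
  exact this ▸ hp'

theorem antitone_unique (I J : Finset Cell)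
    (hI : ∀ p ∈ I, ∀ p' ∈ I, p ≠ p' → p.1 ≠ p'.1 ∧ p.2 ≠ p'.2 ∧ ¬ sl p p')
    (hJ : ∀ p ∈ J, ∀ p' ∈ J, p ≠ p' → p.1 ≠ p'.1 ∧ p.2 ≠ p'.2 ∧ ¬ sl p p')
    (h1 : I.image Prod.fst = J.image Prod.fst) (h2 : I.image Prod.snd = J.image Prod.snd) :
    I = J :=
  Finset.Subset.antisymm (antitone_sub I J hI hJ h1 h2) (antitone_sub J I hJ hI h1.symm h2.symm)

theorem inner_antitone {X Y : Finset Cell → Prop} {ω : Finset Cell} (hg : GoodS X Y ω)
    (h4 : ¬ C4 X Y ω) :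
    ∀ p ∈ ω.filter (In X Y ω), ∀ p' ∈ ω.filter (In X Y ω), p ≠ p' →
      p.1 ≠ p'.1 ∧ p.2 ≠ p'.2 ∧ ¬ sl p p' := by
  intro p hp p' hp' hne
  rw [Finset.mem_filter] at hp hp'
  obtain ⟨a, b⟩ := hg p hp.1 p' hp'.1 hp.2 hp'.2 hne
  refine ⟨a, b, fun hs => h4 ?_⟩
  obtain ⟨p1, hp1, hU, hs1⟩ := hp.2.1
  obtain ⟨p4, hp4, hs4, hD⟩ := hp'.2.2
  exact ⟨p1, hp1, p, hp.1, p', hp'.1, p4, hp4, hU, hs1, hs, hs4, hD⟩

theorem unique_of_rel {X Y : Finset Cell → Prop} {ω1 ω2 ω : Finset Cell}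
    (h1 : Rel X Y ω1 ω) (h2 : Rel X Y ω2 ω) (g1 : GoodS X Y ω1) (g2 : GoodS X Y ω2)
    (n1 : ¬ C4 X Y ω1) (n2 : ¬ C4 X Y ω2) : ω1 = ω2 := by
  have r : Rel X Y ω1 ω2 := h1.trans' (h2.symm' g2)
  have e : (In X Y ω2) = (In X Y ω1) := funext fun w => propext (r.inIff w)
  have a1 := inner_antitone g1 n1
  have a2 := inner_antitone g2 n2
  rw [e] at a2
  have key : ω1.filter (In X Y ω1) = ω2.filter (In X Y ω1) :=
    antitone_unique _ _ a1 a2 r.fst.symm r.snd.symm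
  ext w
  by_cases hw : In X Y ω1 w
  · constructor
    · intro h
      have : w ∈ ω1.filter (In X Y ω1) := Finset.mem_filter.2 ⟨h, hw⟩
      rw [key] at this
      exact (Finset.mem_filter.1 this).1
    · intro h
      have : w ∈ ω2.filter (In X Y ω1) := Finset.mem_filter.2 ⟨h, hw⟩
      rw [← key] at this
      exact (Finset.mem_filter.1 this).1
  · exact (r.out w hw).symm

theorem sw_subset {M : ℕ} {ω : Finset Cell} (h : ω ⊆ grid M) {p p' : Cell} (hp : p ∈ ω) (hp' : p' ∈ ω) :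
    sw ω p p' ⊆ grid M := by
  have g1 := h hp
  have g2 := h hp'
  simp only [grid, Finset.mem_product, Finset.mem_range] at g1 g2
  intro w hw
  rw [mem_sw] at hw
  rcases hw with rfl | rfl | hw
  · simp only [grid, Finset.mem_product, Finset.mem_range]; exact ⟨g1.1, g2.2⟩
  · simp only [grid, Finset.mem_product, Finset.mem_range]; exact ⟨g2.1, g1.2⟩
  · exact h hw.2.2

theorem sw_phi {X Y : Finset Cell → Prop} {ω : Finset Cell} (hg : GoodS X Y ω) {p p' : Cell}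
    (hp : p ∈ ω) (hp' : p' ∈ ω) (h1 : p.1 < p'.1) (h2 : p'.2 < p.2)
    (hu : up X ω (p.1, p'.2)) (hd : dn Y ω (p'.1, p.2)) :
    ∑ w ∈ ω, w.1 * w.2 < ∑ w ∈ sw ω p p', w.1 * w.2 := by
  have Ia : In X Y ω (p.1, p'.2) := ⟨hu, dn_anti hd h1.le h2.le⟩
  have Ib : In X Y ω (p'.1, p.2) := ⟨up_mono hu h1.le h2.le, hd⟩
  have Ip : In X Y ω p := ⟨up_mono hu le_rfl h2.le, dn_anti hd h1.le le_rfl⟩
  have hpp' : p ≠ p' := by
    rintro rfl; exact lt_irrefl _ h1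
  have ha : (p.1, p'.2) ∉ ω := by
    intro hmem
    have hne : ((p.1, p'.2) : Cell) ≠ p := by
      intro h; rw [← h] at h2; exact lt_irrefl _ h2
    exact (hg _ hmem _ hp Ia Ip hne).1 rfl
  have hb : (p'.1, p.2) ∉ ω := by
    intro hmem
    have hne : ((p'.1, p.2) : Cell) ≠ p := by
      intro h; rw [← h] at h1; exact lt_irrefl _ h1
    exact (hg _ hmem _ hp Ib Ip hne).2 rfl
  have hab : ((p.1, p'.2) : Cell) ≠ (p'.1, p.2) := by
    intro h
    have := congrArg Prod.fst h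
    simp only at this
    omega
  have hp'e : p' ∈ ω.erase p := Finset.mem_erase.2 ⟨hpp'.symm, hp'⟩
  have e1 : ∑ w ∈ ω, w.1 * w.2 = p.1 * p.2 + (p'.1 * p'.2 + ∑ w ∈ (ω.erase p).erase p', w.1 * w.2) := by
    rw [← Finset.add_sum_erase ω _ hp, ← Finset.add_sum_erase (ω.erase p) _ hp'e]
  have e2 : ∑ w ∈ sw ω p p', w.1 * w.2
      = p.1 * p'.2 + (p'.1 * p.2 + ∑ w ∈ (ω.erase p).erase p', w.1 * w.2) := by
    unfold sw
    rw [Finset.sum_insert, Finset.sum_insert]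
    · simp [Finset.mem_erase, hb]
    · simp only [Finset.mem_insert, Finset.mem_erase, not_or, not_and]
      exact ⟨hab, fun _ _ => ha⟩
  rw [e1, e2]
  obtain ⟨u, hu'⟩ := Nat.exists_eq_add_of_lt h1
  obtain ⟨v, hv'⟩ := Nat.exists_eq_add_of_lt h2
  rw [hu', hv']
  nlinarith [Nat.zero_le (u * v), Nat.zero_le u, Nat.zero_le v]

theorem exists_avoider {X Y : Finset Cell → Prop} {M : ℕ} {ω : Finset Cell} (hω : ω ⊆ grid M)
    (hg : GoodS X Y ω) : ∃ ω' ⊆ grid M, Rel X Y ω ω' ∧ ¬ CB X Y ω' := by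
  let S := (grid M).powerset.filter (fun ω' => Rel X Y ω ω')
  have hne : S.Nonempty := ⟨ω, Finset.mem_filter.2 ⟨Finset.mem_powerset.2 hω, Rel.refl' hg⟩⟩
  obtain ⟨ω', hω', hmax⟩ := Finset.exists_max_image S (fun ω' => ∑ w ∈ ω', w.1 * w.2) hne
  rw [Finset.mem_filter, Finset.mem_powerset] at hω'
  refine ⟨ω', hω'.1, hω'.2, ?_⟩
  rintro ⟨p1, hp1, p2, hp2, p3, hp3, p4, hp4, hU, ⟨s12, s13, h23, h32, s24, s34⟩, hD⟩
  have hu : up X ω' (p2.1, p3.2) := ⟨p1, hp1, hU, s12.1, s13.2⟩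
  have hd : dn Y ω' (p3.1, p2.2) := ⟨p4, hp4, ⟨s34.1, s24.2⟩, hD⟩
  have hr := swap_rel hω'.2.good hp2 hp3 h23 h32 hu hd
  have hphi := sw_phi hω'.2.good hp2 hp3 h23 h32 hu hd
  have hmem : sw ω' p2 p3 ∈ S :=
    Finset.mem_filter.2 ⟨Finset.mem_powerset.2 (sw_subset hω'.1 hp2 hp3), hω'.2.trans' hr⟩
  have := hmax _ hmem
  omega

/-- a chosen avoider of `X ⊕ 1324 ⊕ Y` in the class of `ω` -/
noncomputable def av (X Y : Finset Cell → Prop) (M : ℕ) (ω : Finset Cell) : Finset Cell :=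
  if h : ω ⊆ grid M ∧ GoodS X Y ω then (exists_avoider h.1 h.2).choose else ω

theorem av_spec {X Y : Finset Cell → Prop} {M : ℕ} {ω : Finset Cell} (hω : ω ⊆ grid M)
    (hg : GoodS X Y ω) : av X Y M ω ⊆ grid M ∧ Rel X Y ω (av X Y M ω) ∧ ¬ CB X Y (av X Y M ω) := by
  unfold av
  rw [dif_pos ⟨hω, hg⟩]
  exact (exists_avoider hω hg).choose_spec

theorem exists_second {X Y : Finset Cell → Prop} {M : ℕ} {ω : Finset Cell} (hT : Two X Y M ω)
    (τ : Finset Cell) : ∃ ω' ⊆ grid M, ω' ≠ τ ∧ Rel X Y ω ω' ∧ ¬ CB X Y ω' := by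
  obtain ⟨_, _, ωA, hA, ωB, hB, hne, rA, rB, cA, cB⟩ := hT
  by_cases h : ωA = τ
  · exact ⟨ωB, hB, fun hb => hne (h.trans hb.symm), rB, cB⟩
  · exact ⟨ωA, hA, h, rA, cA⟩

noncomputable def av2 (X Y : Finset Cell → Prop) (M : ℕ) (ω : Finset Cell) : Finset Cell :=
  if h : Two X Y M ω then (exists_second h (av X Y M ω)).choose else ω

theorem av2_spec {X Y : Finset Cell → Prop} {M : ℕ} {ω : Finset Cell} (hT : Two X Y M ω) :
    av2 X Y M ω ⊆ grid M ∧ av2 X Y M ω ≠ av X Y M ω ∧ Rel X Y ω (av2 X Y M ω) ∧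
      ¬ CB X Y (av2 X Y M ω) := by
  unfold av2
  rw [dif_pos hT]
  exact (exists_second hT (av X Y M ω)).choose_spec

/-- the event as a finset -/
noncomputable def ev (M : ℕ) (P : Finset Cell → Prop) : Finset (Finset Cell) :=
  (grid M).powerset.filter P

theorem mem_ev {M : ℕ} {P : Finset Cell → Prop} {ω : Finset Cell} :
    ω ∈ ev M P ↔ ω ⊆ grid M ∧ P ω := by
  unfold ev
  rw [Finset.mem_filter, Finset.mem_powerset]

theorem Pr_eq (q : ℝ) (M : ℕ) (P : Finset Cell → Prop) :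
    Pr q M P = ∑ ω ∈ ev M P, q ^ ω.card * (1 - q) ^ (M ^ 2 - ω.card) := rfl

theorem Pr_mono {q : ℝ} (hq0 : 0 ≤ q) (hq1 : q ≤ 1) {M : ℕ} {P Q : Finset Cell → Prop}
    (h : ∀ ω ⊆ grid M, P ω → Q ω) : Pr q M P ≤ Pr q M Q := by
  rw [Pr_eq, Pr_eq]
  apply Finset.sum_le_sum_of_subset_of_nonneg
  · intro ω hω
    rw [mem_ev] at hω ⊢
    exact ⟨hω.1, h ω hω.1 hω.2⟩
  · intro ω _ _
    exact mul_nonneg (pow_nonneg hq0 _) (pow_nonneg (by linarith) _)

theorem Pr_nonneg {q : ℝ} (hq0 : 0 ≤ q) (hq1 : q ≤ 1) {M : ℕ} (P : Finset Cell → Prop) :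
    0 ≤ Pr q M P := by
  unfold Pr
  exact Finset.sum_nonneg fun ω _ => mul_nonneg (pow_nonneg hq0 _) (pow_nonneg (by linarith) _)

theorem Pr_or_le {q : ℝ} (hq0 : 0 ≤ q) (hq1 : q ≤ 1) {M : ℕ} (P Q : Finset Cell → Prop) :
    Pr q M (fun ω => P ω ∨ Q ω) ≤ Pr q M P + Pr q M Q := by
  rw [Pr_eq, Pr_eq, Pr_eq]
  have e : ev M (fun ω => P ω ∨ Q ω) = ev M P ∪ ev M Q := by
    ext ω
    rw [Finset.mem_union, mem_ev, mem_ev, mem_ev]
    tauto
  rw [e, ← Finset.sum_union_inter]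
  have : 0 ≤ ∑ ω ∈ (ev M P ∩ ev M Q),
      q ^ ω.card * (1 - q) ^ (M ^ 2 - ω.card) :=
    Finset.sum_nonneg fun ω _ => mul_nonneg (pow_nonneg hq0 _) (pow_nonneg (by linarith) _)
  linarith

theorem card_grid (M : ℕ) : (grid M).card = M ^ 2 := by
  simp [grid, sq]

theorem Pr_not (q : ℝ) (M : ℕ) (P : Finset Cell → Prop) :
    Pr q M P + Pr q M (fun ω => ¬ P ω) = 1 := by
  unfold Pr
  rw [Finset.sum_filter_add_sum_filter_not]
  have := Finset.sum_pow_mul_eq_add_pow q (1 - q) (grid M)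
  rw [card_grid] at this
  rw [this]
  simp

/-- B1 -/
theorem classes (X Y : Finset Cell → Prop) (q : ℝ) (hq0 : 0 ≤ q) (hq1 : q ≤ 1) (M : ℕ) :
    Pr q M (fun ω => ¬ C4 X Y ω) + Pr q M (Two X Y M)
      ≤ Pr q M (fun ω => ¬ CB X Y ω) + Pr q M (fun ω => ¬ NC ω) := by
  have step1 : Pr q M (fun ω => ¬ C4 X Y ω) ≤
      Pr q M (fun ω => GoodS X Y ω ∧ ¬ C4 X Y ω) + Pr q M (fun ω => ¬ NC ω) := by
    refine le_trans (Pr_mono hq0 hq1 ?_) (Pr_or_le hq0 hq1 _ _)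
    intro ω _ h
    by_cases hn : NC ω
    · left
      exact ⟨fun p hp p' hp' _ _ hne => hn p hp p' hp' hne, h⟩
    · right; exact hn
  have step2 : Pr q M (fun ω => GoodS X Y ω ∧ ¬ C4 X Y ω) + Pr q M (Two X Y M) ≤
      Pr q M (fun ω => ¬ CB X Y ω) := by
    let S1 := ev M (fun ω => GoodS X Y ω ∧ ¬ C4 X Y ω)
    let S2 := ev M (Two X Y M)
    let W : Finset Cell → ℝ := fun ω => q ^ ω.card * (1 - q) ^ (M ^ 2 - ω.card)
    have i1 : Set.InjOn (av X Y M) S1 := by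
      intro ω1 h1 ω2 h2 e
      have h1 := mem_ev.1 h1
      have h2 := mem_ev.1 h2
      have r1 := (av_spec h1.1 h1.2.1).2.1
      have r2 := (av_spec h2.1 h2.2.1).2.1
      rw [← e] at r2
      exact unique_of_rel r1 r2 h1.2.1 h2.2.1 h1.2.2 h2.2.2
    have i2 : Set.InjOn (av2 X Y M) S2 := by
      intro ω1 h1 ω2 h2 e
      have h1 := mem_ev.1 h1
      have h2 := mem_ev.1 h2
      have r1 := (av2_spec h1.2).2.2.1
      have r2 := (av2_spec h2.2).2.2.1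
      rw [← e] at r2
      exact unique_of_rel r1 r2 h1.2.1 h2.2.1 h1.2.2.1 h2.2.2.1
    have hd : Disjoint (S1.image (av X Y M)) (S2.image (av2 X Y M)) := by
      rw [Finset.disjoint_left]
      intro τ hτ1 hτ2
      obtain ⟨ω1, h1, e1⟩ := Finset.mem_image.1 hτ1
      obtain ⟨ω2, h2, e2⟩ := Finset.mem_image.1 hτ2
      have h1 := mem_ev.1 h1
      have h2 := mem_ev.1 h2
      have r1 := (av_spec h1.1 h1.2.1).2.1
      have s2 := av2_spec h2.2
      have r2 := s2.2.2.1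
      rw [e1] at r1
      rw [e2] at r2
      have he := unique_of_rel r1 r2 h1.2.1 h2.2.1 h1.2.2 h2.2.2.1
      subst he
      exact s2.2.1 (e2.trans e1.symm)
    have w1 : ∑ ω ∈ S1.image (av X Y M), W ω = ∑ ω ∈ S1, W ω := by
      rw [Finset.sum_image i1]
      apply Finset.sum_congr rfl
      intro ω h1
      have h1 := mem_ev.1 h1
      have r1 := (av_spec h1.1 h1.2.1).2.1
      simp only [W, r1.card]
    have w2 : ∑ ω ∈ S2.image (av2 X Y M), W ω = ∑ ω ∈ S2, W ω := by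
      rw [Finset.sum_image i2]
      apply Finset.sum_congr rfl
      intro ω h1
      have h1 := mem_ev.1 h1
      have r1 := (av2_spec h1.2).2.2.1
      simp only [W, r1.card]
    have hsub : S1.image (av X Y M) ∪ S2.image (av2 X Y M) ⊆
        ev M (fun ω => ¬ CB X Y ω) := by
      intro τ hτ
      rcases Finset.mem_union.1 hτ with hτ | hτ
      · obtain ⟨ω1, h1, e1⟩ := Finset.mem_image.1 hτ
        have h1 := mem_ev.1 h1
        have s1 := av_spec h1.1 h1.2.1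
        rw [e1] at s1
        exact mem_ev.2 ⟨s1.1, s1.2.2⟩
      · obtain ⟨ω1, h1, e1⟩ := Finset.mem_image.1 hτ
        have h1 := mem_ev.1 h1
        have s1 := av2_spec h1.2
        rw [e1] at s1
        exact mem_ev.2 ⟨s1.1, s1.2.2.2⟩
    calc Pr q M (fun ω => GoodS X Y ω ∧ ¬ C4 X Y ω) + Pr q M (Two X Y M)
        = ∑ ω ∈ S1, W ω + ∑ ω ∈ S2, W ω := rfl
      _ = ∑ ω ∈ S1.image (av X Y M) ∪ S2.image (av2 X Y M), W ω := by
          rw [Finset.sum_union hd, w1, w2]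
      _ ≤ Pr q M (fun ω => ¬ CB X Y ω) := by
          rw [Pr_eq]
          apply Finset.sum_le_sum_of_subset_of_nonneg hsub
          intro ω _ _
          exact mul_nonneg (pow_nonneg hq0 _) (pow_nonneg (by linarith) _)
  linarith

end Pool.H52.AL
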