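import Pool.Agent.H52.AL.Defs

set_option autoImplicit false
open Classical

namespace Pool.H52.AL

/-- the cell `w` is above some occurrence of `X ⊕ 1` -/
def up (X : Finset Cell → Prop) (ω : Finset Cell) (w : Cell) : Prop :=
  ∃ p ∈ ω, U X ω p ∧ sl p w

/-- the cell `w` is below some occurrence of `1 ⊕ Y` -/
def dn (Y : Finset Cell → Prop) (ω : Finset Cell) (w : Cell) : Prop :=
  ∃ p ∈ ω, sl w p ∧ D Y ω (p.1 + 1, p.2 + 1)

/-- the region between `X ⊕ 1` and `1 ⊕ Y` -/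
def In (X Y : Finset Cell → Prop) (ω : Finset Cell) (w : Cell) : Prop := up X ω w ∧ dn Y ω w

/-- the points of `ω` in the region have distinct rows and columns -/
def GoodS (X Y : Finset Cell → Prop) (ω : Finset Cell) : Prop :=
  ∀ p ∈ ω, ∀ p' ∈ ω, In X Y ω p → In X Y ω p' → p ≠ p' → p.1 ≠ p'.1 ∧ p.2 ≠ p'.2

/-- `ω'` is a rearrangement of the points of `ω` inside its region, with the same rows and columns -/
structure Rel (X Y : Finset Cell → Prop) (ω ω' : Finset Cell) : Prop where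
  up_iff : ∀ w, up X ω' w ↔ up X ω w
  dn_iff : ∀ w, dn Y ω' w ↔ dn Y ω w
  out : ∀ w, ¬ In X Y ω w → (w ∈ ω' ↔ w ∈ ω)
  fst : (ω'.filter (In X Y ω)).image Prod.fst = (ω.filter (In X Y ω)).image Prod.fst
  snd : (ω'.filter (In X Y ω)).image Prod.snd = (ω.filter (In X Y ω)).image Prod.snd
  card : ω'.card = ω.card
  good : GoodS X Y ω'

/-- the class of `ω` has two different members avoiding `X ⊕ 1324 ⊕ Y` -/
def Two (X Y : Finset Cell → Prop) (M : ℕ) (ω : Finset Cell) : Prop :=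
  GoodS X Y ω ∧ ¬ C4 X Y ω ∧ ∃ ωA ⊆ grid M, ∃ ωB ⊆ grid M, ωA ≠ ωB ∧
    Rel X Y ω ωA ∧ Rel X Y ω ωB ∧ ¬ CB X Y ωA ∧ ¬ CB X Y ωB

/-- replace the points `p`, `p'` of `ω` by `(p.1, p'.2)`, `(p'.1, p.2)` -/
noncomputable def sw (ω : Finset Cell) (p p' : Cell) : Finset Cell :=
  insert (p.1, p'.2) (insert (p'.1, p.2) ((ω.erase p).erase p'))

end Pool.H52.AL
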