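import Pool.Agent.H52.AL.B1
import Pool.Agent.H80.AL.B2
import Pool.Agent.H27.AL.GH

set_option autoImplicit false
open Classical

namespace Pool.H52.AL

theorem gain (X Y : Finset Cell → Prop) (q : ℝ) (hq0 : 0 < q) (hq1 : q < 1) (M r : ℕ) :
    q ^ 7 * (r : ℝ) ^ 14 * Pr q M (fun ω => Es X Y (7 * r) M ω ∧ ¬ C1 X Y ω) - (M : ℝ) ^ 3 * q ^ 2
      ≤ Pr q M (C4 X Y) - Pr q M (CB X Y) := by
  have h1 := classes X Y q hq0.le hq1.le M
  have h2 := Pool.H80.AL.insertion X Y q hq0 hq1 M r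
  have h3 := Pool.Agent.H27.AL.collision q hq0.le hq1.le M
  have h4 := Pr_not q M (C4 X Y)
  have h5 := Pr_not q M (CB X Y)
  linarith

end Pool.H52.AL
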